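import Pool.Agent.H136R3.Cauchy

/-!
# `A^{(1)}(X)` is not contained in `R(X)` in general

Let `K` be a Swiss cheese: a compact set without interior such that `G(z) = max (0, 1 - |z|)` is
not a uniform limit on `K` of rational functions with poles off `K`. Put small closed discs with
centres `b n` into the complement of `K`, in disjoint shells around `K`, so that they accumulate at
every point of `K`. On the union `X` of `K` and of the discs let `f = G` on `K` and `f = G (b n)` on
the disc number `n`. Then `f` is continuous and locally constant in the interior of `X`, which is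
dense in `X`, but `f` is not in `R(X)`.
-/

set_option autoImplicit false

namespace Pool.Agent.Results.MP_a6d22b_an.NotRational

open Filter Topology Set Metric Polynomial TopologicalSpace

/-! ### A Swiss cheese -/

/-- A finite family of discs in the unit disc which avoid the origin. -/
structure Valid (l : List (ℂ × ℝ)) : Prop where
  pos : ∀ y ∈ l, 0 < y.2
  small : ∀ y ∈ l, y.2 < ‖y.1‖
  inside : ∀ y ∈ l, closedBall y.1 y.2 ⊆ ball 0 1
  disj : l.Pairwise fun x y => Disjoint (closedBall x.1 x.2) (closedBall y.1 y.2)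

theorem step (q : ℂ) (l : List (ℂ × ℝ)) (hl : Valid l) (n : ℕ) : ∃ x : ℂ × ℝ, Valid (x :: l) ∧
    x.2 ≤ (1 / 2) ^ n / 16 * ‖x.1‖ ∧
    (q ∈ ball (0 : ℂ) 1 → q ≠ 0 → ∃ y ∈ x :: l, q ∈ closedBall y.1 y.2) := by
  set U : Set ℂ := ⋃ y ∈ l.toFinset, closedBall y.1 y.2 with hU
  have hUc : IsClosed U := by
    refine Set.Finite.isClosed_biUnion (Finset.finite_toSet _) fun y _ => isClosed_closedBall
  have hmem : ∀ z, z ∈ U ↔ ∃ y ∈ l, z ∈ closedBall y.1 y.2 := by
    intro z; simp [hU]
  have hU0 : (0 : ℂ) ∉ U := by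
    rw [hmem]
    rintro ⟨y, hy, hz⟩
    have := hl.small y hy
    rw [mem_closedBall, dist_comm, dist_zero_right] at hz
    linarith
  -- the centre
  obtain ⟨a, ha1, ha0, haU, haq⟩ : ∃ a : ℂ, a ∈ ball (0 : ℂ) 1 ∧ a ≠ 0 ∧ a ∉ U ∧
      (q ∈ ball (0 : ℂ) 1 → q ≠ 0 → q ∉ U → a = q) := by
    by_cases hq : q ∈ ball (0 : ℂ) 1 ∧ q ≠ 0 ∧ q ∉ U
    · exact ⟨q, hq.1, hq.2.1, hq.2.2, fun _ _ _ => rfl⟩
    · have hop : IsOpen (ball (0 : ℂ) 1 \ U) := isOpen_ball.sdiff hUc
      obtain ⟨ε, hε, hεs⟩ := Metric.isOpen_iff.1 hop 0 ⟨by simp, hU0⟩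
      have h1 : ((ε / 2 : ℝ) : ℂ) ∈ ball (0 : ℂ) ε := by
        rw [mem_ball_zero_iff, Complex.norm_real, Real.norm_of_nonneg (by positivity)]
        linarith
      refine ⟨((ε / 2 : ℝ) : ℂ), (hεs h1).1, ?_, (hεs h1).2, fun h2 h3 h4 => ?_⟩
      · exact_mod_cast (by positivity : (ε / 2 : ℝ) ≠ 0)
      · exact absurd ⟨h2, h3, h4⟩ hq
  have hop : IsOpen (ball (0 : ℂ) 1 \ U) := isOpen_ball.sdiff hUc
  obtain ⟨ε, hε, hεs⟩ := Metric.isOpen_iff.1 hop a ⟨ha1, haU⟩
  have hapos : 0 < ‖a‖ := norm_pos_iff.2 ha0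
  set ρ : ℝ := min (ε / 2) ((1 / 2) ^ n / 16 * ‖a‖) with hρ
  have hρ0 : 0 < ρ := lt_min (by linarith) (by positivity)
  have hsub : closedBall a ρ ⊆ ball (0 : ℂ) 1 \ U := by
    refine (closedBall_subset_ball ?_).trans hεs
    have := min_le_left (ε / 2) ((1 / 2) ^ n / 16 * ‖a‖)
    rw [← hρ] at this
    linarith
  have hρle : ρ ≤ (1 / 2) ^ n / 16 * ‖a‖ := min_le_right _ _
  have hpow : (1 / 2 : ℝ) ^ n ≤ 1 := pow_le_one₀ (by norm_num) (by norm_num)
  refine ⟨(a, ρ), ⟨?_, ?_, ?_, ?_⟩, hρle, ?_⟩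
  · intro y hy
    rcases List.mem_cons.1 hy with rfl | hy
    · exact hρ0
    · exact hl.pos y hy
  · intro y hy
    rcases List.mem_cons.1 hy with rfl | hy
    · refine hρle.trans_lt ?_
      nlinarith
    · exact hl.small y hy
  · intro y hy
    rcases List.mem_cons.1 hy with rfl | hy
    · exact fun z hz => (hsub hz).1
    · exact hl.inside y hy
  · refine List.Pairwise.cons ?_ hl.disj
    intro y hy
    rw [Set.disjoint_left]
    intro z hz hz'
    exact (hsub hz).2 ((hmem z).2 ⟨y, hy, hz'⟩)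
  · intro h1 h2
    by_cases h3 : q ∈ U
    · obtain ⟨y, hy, hz⟩ := (hmem q).1 h3
      exact ⟨y, List.mem_cons_of_mem _ hy, hz⟩
    · refine ⟨(a, ρ), List.mem_cons_self, ?_⟩
      rw [haq h1 h2 h3]
      exact mem_closedBall_self hρ0.le

open Classical in
/-- The next disc. -/
noncomputable def nxt (n : ℕ) (l : List (ℂ × ℝ)) : ℂ × ℝ :=
  if h : Valid l then (step (denseSeq ℂ n) l h n).choose else 0

/-- The lists of the first discs. -/
noncomputable def L : ℕ → List (ℂ × ℝ)
  | 0 => []
  | n + 1 => nxt n (L n) :: L n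

theorem valid_L (n : ℕ) : Valid (L n) := by
  induction n with
  | zero => exact ⟨by simp [L], by simp [L], by simp [L], List.Pairwise.nil⟩
  | succ n ih =>
    have h := (step (denseSeq ℂ n) (L n) ih n).choose_spec.1
    rw [L, nxt, dif_pos ih]
    exact h

/-- The discs. -/
noncomputable def s (n : ℕ) : ℂ × ℝ := nxt n (L n)

theorem s_spec (n : ℕ) : (s n).2 ≤ (1 / 2) ^ n / 16 * ‖(s n).1‖ ∧
    (denseSeq ℂ n ∈ ball (0 : ℂ) 1 → denseSeq ℂ n ≠ 0 →
      ∃ y ∈ L (n + 1), denseSeq ℂ n ∈ closedBall y.1 y.2) := by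
  have h := (step (denseSeq ℂ n) (L n) (valid_L n) n).choose_spec.2
  have h2 : s n = (step (denseSeq ℂ n) (L n) (valid_L n) n).choose := by
    rw [s, nxt, dif_pos (valid_L n)]
  have h3 : L (n + 1) = s n :: L n := rfl
  rw [h3, h2]
  exact h

theorem mem_L {m n : ℕ} (h : m < n) : s m ∈ L n := by
  induction n with
  | zero => omega
  | succ n ih =>
    rcases Nat.lt_succ_iff_lt_or_eq.1 h with h1 | rfl
    · exact List.mem_cons_of_mem _ (ih h1)
    · exact List.mem_cons_self

theorem eq_of_mem_L {n : ℕ} {y : ℂ × ℝ} (h : y ∈ L n) : ∃ m, y = s m := by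
  induction n with
  | zero => simp [L] at h
  | succ n ih =>
    rcases List.mem_cons.1 h with rfl | h1
    · exact ⟨n, rfl⟩
    · exact ih h1

theorem s_mem (n : ℕ) : s n ∈ L (n + 1) := List.mem_cons_self

theorem s_pos (n : ℕ) : 0 < (s n).2 := (valid_L (n + 1)).pos _ (s_mem n)

theorem s_small (n : ℕ) : (s n).2 < ‖(s n).1‖ := (valid_L (n + 1)).small _ (s_mem n)

theorem s_inside (n : ℕ) : closedBall (s n).1 (s n).2 ⊆ ball 0 1 :=
  (valid_L (n + 1)).inside _ (s_mem n)

theorem s_disj {m n : ℕ} (h : m ≠ n) :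
    Disjoint (closedBall (s m).1 (s m).2) (closedBall (s n).1 (s n).2) := by
  have key : ∀ m n, m < n → Disjoint (closedBall (s n).1 (s n).2) (closedBall (s m).1 (s m).2) := by
    intro m n hmn
    have h1 := (valid_L (n + 1)).disj
    have h2 : L (n + 1) = s n :: L n := rfl
    rw [h2, List.pairwise_cons] at h1
    exact h1.1 _ (mem_L hmn)
  rcases Nat.lt_or_gt_of_ne h with h1 | h1
  · exact (key m n h1).symm
  · exact key n m h1

/-- The Swiss cheese. -/
def K : Set ℂ := closedBall 0 1 \ ⋃ n, ball (s n).1 (s n).2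

theorem isCompact_K : IsCompact K :=
  (isCompact_closedBall 0 1).diff (isOpen_iUnion fun n => isOpen_ball)

theorem interior_K : interior K = ∅ := by
  rw [Set.eq_empty_iff_forall_notMem]
  intro z hz
  obtain ⟨ε, hε, hεs⟩ := Metric.isOpen_iff.1 isOpen_interior z hz
  have hsub : ball z ε ⊆ K := hεs.trans interior_subset
  -- a point of the dense sequence in the open set `ball z ε ∩ ball 0 1 \ {0}`
  have hne : (ball z ε ∩ (ball (0 : ℂ) 1 \ {0})).Nonempty := by
    have h1 : (ball z ε ∩ ball (0 : ℂ) 1).Nonempty := by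
      have hz1 : z ∈ closure (ball (0 : ℂ) 1) := by
        rw [closure_ball (0 : ℂ) one_ne_zero]
        exact (hsub (mem_ball_self hε)).1
      obtain ⟨w, hw1, hw2⟩ := mem_closure_iff.1 hz1 (ball z ε) isOpen_ball (mem_ball_self hε)
      exact ⟨w, hw1, hw2⟩
    by_contra hcon
    rw [Set.not_nonempty_iff_eq_empty] at hcon
    have h2 : ball z ε ∩ ball (0 : ℂ) 1 ⊆ {0} := by
      intro w hw
      by_contra hw0
      have : w ∈ (∅ : Set ℂ) := hcon ▸ ⟨hw.1, hw.2, hw0⟩
      exact this
    obtain ⟨w, hw⟩ := h1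
    have h3 : IsOpen (ball z ε ∩ ball (0 : ℂ) 1) := isOpen_ball.inter isOpen_ball
    have h4 : ({0} : Set ℂ) ∈ 𝓝 w := mem_of_superset (h3.mem_nhds hw) h2
    have h5 : w = 0 := h2 hw
    rw [h5] at h4
    exact (not_isOpen_singleton (0 : ℂ)) (isOpen_singleton_iff_nhds_eq_pure _ |>.2 (by
      apply le_antisymm
      · exact le_pure_iff.2 h4
      · exact pure_le_nhds 0))
  have hopen : IsOpen (ball z ε ∩ (ball (0 : ℂ) 1 \ {0})) :=
    isOpen_ball.inter (isOpen_ball.sdiff isClosed_singleton)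
  obtain ⟨w, hw, n, rfl⟩ := (denseRange_denseSeq ℂ).inter_open_nonempty _ hopen hne
  obtain ⟨y, hy, hyw⟩ := (s_spec n).2 hw.2.1 hw.2.2
  obtain ⟨m, rfl⟩ := eq_of_mem_L hy
  -- the open disc number `m` meets `ball z ε`
  have h6 : denseSeq ℂ n ∈ closure (ball (s m).1 (s m).2) := by
    rw [closure_ball _ (s_pos m).ne']; exact hyw
  obtain ⟨w', hw1, hw2⟩ := mem_closure_iff.1 h6 (ball z ε) isOpen_ball hw.1
  exact (hsub hw1).2 (mem_iUnion.2 ⟨m, hw2⟩)

theorem zero_mem_K : (0 : ℂ) ∈ K := by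
  refine ⟨by simp, fun h => ?_⟩
  obtain ⟨n, hn⟩ := mem_iUnion.1 h
  rw [mem_ball, dist_comm, dist_zero_right] at hn
  have := s_small n
  linarith

/-- The function. -/
noncomputable def G (z : ℂ) : ℂ := ((max 0 (1 - ‖z‖) : ℝ) : ℂ)

theorem continuous_G : Continuous G := by
  unfold G
  fun_prop

open Pool.Agent.H136R3 in
/-- `G` is not a uniform limit on `K` of rational functions with poles off `K`. -/
theorem G_far (p q : ℂ[X]) (hq : ∀ z ∈ K, q.eval z ≠ 0)
    (h : ∀ z ∈ K, ‖G z - p.eval z / q.eval z‖ < 1 / 4) : False := by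
  have hq0 : q ≠ 0 := by
    rintro rfl
    exact hq 0 zero_mem_K (by simp)
  obtain ⟨p', l, hl1, hl2⟩ := exists_GG p q hq0
  have hroot : ∀ b ∈ l, b ∉ closedBall (0 : ℂ) 1 ∨ ∃ n, b ∈ ball (s n).1 (s n).2 := by
    intro b hb
    by_contra hcon
    push Not at hcon
    refine hq b ⟨hcon.1, fun h => ?_⟩ (hl1 b hb)
    obtain ⟨n, hn⟩ := mem_iUnion.1 h
    exact hcon.2 n hn
  obtain ⟨N, hroot'⟩ : ∃ N : ℕ, ∀ b ∈ l, b ∉ closedBall (0 : ℂ) 1 ∨
      ∃ n ∈ Finset.range N, b ∈ ball (s n).1 (s n).2 := by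
    clear hl1 hl2
    induction l with
    | nil => exact ⟨0, by simp⟩
    | cons b l ih =>
      obtain ⟨N₁, h2⟩ := ih (fun b' hb' => hroot b' (List.mem_cons_of_mem _ hb'))
      rcases hroot b List.mem_cons_self with h3 | ⟨n, h3⟩
      · refine ⟨N₁, fun b' hb' => ?_⟩
        rcases List.mem_cons.1 hb' with rfl | h4
        · exact Or.inl h3
        · exact h2 b' h4
      · refine ⟨max N₁ (n + 1), fun b' hb' => ?_⟩
        rcases List.mem_cons.1 hb' with rfl | h4
        · exact Or.inr ⟨n, Finset.mem_range.2 (by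
            have := le_max_right N₁ (n + 1); omega), h3⟩
        · rcases h2 b' h4 with h5 | ⟨m, h5, h6⟩
          · exact Or.inl h5
          · exact Or.inr ⟨m, Finset.mem_range.2 ((Finset.mem_range.1 h5).trans_le
              (le_max_left _ _)), h6⟩
  have hconf : Config (0 : ℂ) 1 (Finset.range N) (fun n => (s n).1) (fun n => (s n).2) :=
    ⟨one_pos, fun n _ => s_pos n, fun n _ => s_inside n, fun m _ n _ h => s_disj h⟩
  have h0out : ∀ n, (0 : ℂ) ∉ closedBall (s n).1 (s n).2 := by
    intro n hn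
    rw [mem_closedBall, dist_comm, dist_zero_right] at hn
    have := s_small n
    linarith
  have hII := (multi_cauchy hconf p' l hroot').1 0 ⟨by simp, fun n _ => h0out n⟩
  -- the spheres are contained in `K`
  have hsph0 : sphere (0 : ℂ) 1 ⊆ K := by
    intro z hz
    refine ⟨sphere_subset_closedBall hz, fun h => ?_⟩
    obtain ⟨n, hn⟩ := mem_iUnion.1 h
    have := s_inside n (ball_subset_closedBall hn)
    rw [mem_sphere] at hz
    rw [mem_ball, hz] at this
    exact lt_irrefl _ this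
  have hsph : ∀ n, sphere (s n).1 (s n).2 ⊆ K := by
    intro n z hz
    refine ⟨ball_subset_closedBall (s_inside n (sphere_subset_closedBall hz)), fun h => ?_⟩
    obtain ⟨m, hm⟩ := mem_iUnion.1 h
    by_cases hmn : m = n
    · subst hmn
      rw [mem_ball, mem_sphere.1 hz] at hm
      exact lt_irrefl _ hm
    · exact Set.disjoint_left.1 (s_disj hmn) (ball_subset_closedBall hm)
        (sphere_subset_closedBall hz)
  have hG1 : ∀ z, ‖G z‖ ≤ 1 := by
    intro z
    rw [G, Complex.norm_real, Real.norm_of_nonneg (le_max_left _ _)]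
    exact max_le zero_le_one (by linarith [norm_nonneg z])
  have hb1 : ∀ z ∈ K, ‖GG p' l z‖ ≤ 5 / 4 := by
    intro z hz
    rw [← hl2 z]
    have h1 := h z hz
    have h2 : p.eval z / q.eval z = G z - (G z - p.eval z / q.eval z) := by ring
    rw [h2]
    refine (norm_sub_le _ _).trans ?_
    linarith [hG1 z]
  have hb2 : ∀ z ∈ sphere (0 : ℂ) 1, ‖GG p' l z‖ ≤ 1 / 4 := by
    intro z hz
    rw [← hl2 z]
    have h1 := h z (hsph0 hz)
    have h2 : G z = 0 := by
      rw [G, mem_sphere_zero_iff_norm.1 hz]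
      simp
    rw [h2, zero_sub, norm_neg] at h1
    exact h1.le
  have hb3 : 3 / 4 ≤ ‖GG p' l 0‖ := by
    rw [← hl2 0]
    have h1 := h 0 zero_mem_K
    have h2 : G 0 = 1 := by simp [G]
    have h3 : (1 : ℝ) ≤ ‖G 0 - p.eval 0 / q.eval 0‖ + ‖p.eval 0 / q.eval 0‖ := by
      calc (1 : ℝ) = ‖(G 0 - p.eval 0 / q.eval 0) + p.eval 0 / q.eval 0‖ := by
            rw [sub_add_cancel, h2, norm_one]
        _ ≤ _ := norm_add_le _ _
    linarith
  -- the integrals
  have hi0 : ‖cint 0 1 (GG p' l) 0‖ ≤ 2 * Real.pi * (1 * ((1 / 4) / 1)) :=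
    norm_cint_le zero_le_one one_pos hb2 fun z hz => by
      rw [sub_zero, mem_sphere_zero_iff_norm.1 hz]
  have hin : ∀ n, ‖cint (s n).1 (s n).2 (GG p' l) 0‖ ≤ 2 * Real.pi * ((1 / 2) ^ n / 12) := by
    intro n
    have h1 : 0 < ‖(s n).1‖ := (s_pos n).trans (s_small n)
    have h2 : (s n).2 ≤ 1 / 16 * ‖(s n).1‖ := by
      refine (s_spec n).1.trans ?_
      have hpow : (1 / 2 : ℝ) ^ n ≤ 1 := pow_le_one₀ (by norm_num) (by norm_num)
      gcongr
    have h3 := norm_cint_le (c := (s n).1) (w := 0) (R := (s n).2) (F := GG p' l) (s_pos n).le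
      (M := 5 / 4) (d := 15 / 16 * ‖(s n).1‖) (by positivity) (fun z hz => hb1 z (hsph n hz)) (by
        intro z hz
        rw [sub_zero]
        have h4 : ‖z - (s n).1‖ = (s n).2 := by
          rw [← dist_eq_norm]; exact hz
        have h5 := norm_sub_norm_le (s n).1 z
        rw [norm_sub_rev, h4] at h5
        linarith)
    refine h3.trans ?_
    refine mul_le_mul_of_nonneg_left ?_ (by positivity)
    have h6 : (s n).2 * (5 / 4 / (15 / 16 * ‖(s n).1‖)) = (4 / 3) * ((s n).2 / ‖(s n).1‖) := by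
      field_simp
      ring
    rw [h6]
    have h7 : (s n).2 / ‖(s n).1‖ ≤ (1 / 2) ^ n / 16 := by
      rw [div_le_iff₀ h1]
      exact (s_spec n).1
    linarith
  have hsum : ‖∑ n ∈ Finset.range N, cint (s n).1 (s n).2 (GG p' l) 0‖ ≤
      2 * Real.pi * (1 / 6) := by
    refine (norm_sum_le _ _).trans ((Finset.sum_le_sum fun n _ => hin n).trans ?_)
    rw [← Finset.mul_sum, ← Finset.sum_div]
    refine mul_le_mul_of_nonneg_left ?_ (by positivity)
    have h1 : ∑ n ∈ Finset.range N, (1 / 2 : ℝ) ^ n ≤ 2 := sum_geometric_two_le N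
    linarith
  have hfin : ‖(2 * Real.pi * Complex.I : ℂ) * GG p' l 0‖ ≤
      2 * Real.pi * (1 / 4) + 2 * Real.pi * (1 / 6) := by
    rw [← hII, II]
    refine (norm_sub_le _ _).trans ?_
    refine add_le_add ?_ hsum
    simpa using hi0
  rw [norm_mul, norm_mul, norm_mul, Complex.norm_I, mul_one, Complex.norm_ofNat, Complex.norm_real,
    Real.norm_of_nonneg Real.pi_pos.le] at hfin
  have hpi := Real.pi_pos
  nlinarith

/-! ### The small discs in the shells around a compact set -/

section shells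

variable {K : Set ℂ}

/-- A sequence in `K` with dense tails. -/
theorem exists_dense_tails (hne : K.Nonempty) : ∃ k : ℕ → ℂ, (∀ n, k n ∈ K) ∧
    ∀ z ∈ K, ∀ ε : ℝ, 0 < ε → ∀ N : ℕ, ∃ n ≥ N, dist (k n) z < ε := by
  have : Nonempty K := hne.to_subtype
  refine ⟨fun n => (denseSeq K (Nat.unpair n).1 : ℂ), fun n => Subtype.mem _, ?_⟩
  intro z hz ε hε N
  obtain ⟨w, hw, j, rfl⟩ := (denseRange_denseSeq K).inter_open_nonempty
    (ball (⟨z, hz⟩ : K) ε) isOpen_ball ⟨_, mem_ball_self hε⟩
  refine ⟨Nat.pair j N, Nat.right_le_pair j N, ?_⟩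
  simp only [Nat.unpair_pair]
  exact hw

theorem exists_near (hK : interior K = ∅) (z : ℂ) {ε : ℝ} (hε : 0 < ε) :
    ∃ b : ℂ, b ∉ K ∧ dist b z < ε := by
  by_contra hcon
  push Not at hcon
  have : z ∈ interior K := mem_interior.2 ⟨ball z ε, fun w hw => by
    by_contra hwK
    exact absurd hw (not_lt.2 (hcon w hwK)), isOpen_ball, mem_ball_self hε⟩
  rw [hK] at this
  exact this

/-- The centres of the discs. -/
theorem exists_centres (hKc : IsCompact K) (hK : interior K = ∅) {k : ℕ → ℂ}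
    (hk : ∀ n, k n ∈ K) : ∃ b : ℕ → ℂ, (∀ n, b n ∉ K) ∧ (∀ n, dist (b n) (k n) < 1 / ((n : ℝ) + 1)) ∧
      ∀ n, infDist (b (n + 1)) K < infDist (b n) K / 4 := by
  have hpos : ∀ z, z ∉ K → 0 < infDist z K := fun z hz =>
    (hKc.isClosed.notMem_iff_infDist_pos ⟨_, hk 0⟩).1 hz
  have hstep : ∀ (n : ℕ) (c : {z : ℂ // z ∉ K}), ∃ b : {z : ℂ // z ∉ K},
      dist (b : ℂ) (k (n + 1)) < min (1 / (((n + 1 : ℕ) : ℝ) + 1)) (infDist (c : ℂ) K / 4) := by
    intro n c
    obtain ⟨b, hb, hb2⟩ := exists_near hK (k (n + 1))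
      (ε := min (1 / (((n + 1 : ℕ) : ℝ) + 1)) (infDist (c : ℂ) K / 4))
      (lt_min (by positivity) (by have := hpos c c.2; linarith))
    exact ⟨⟨b, hb⟩, hb2⟩
  choose g hg using hstep
  obtain ⟨b0, hb0, hb02⟩ := exists_near hK (k 0) one_pos
  let B : ℕ → {z : ℂ // z ∉ K} := fun n => Nat.rec ⟨b0, hb0⟩ g n
  refine ⟨fun n => (B n).1, fun n => (B n).2, ?_, ?_⟩
  · intro n
    cases n with
    | zero =>
      change dist b0 (k 0) < 1 / (((0 : ℕ) : ℝ) + 1)
      simpa using hb02
    | succ n => exact (hg n (B n)).trans_le (min_le_left _ _)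
  · intro n
    have h1 := (hg n (B n)).trans_le (min_le_right _ _)
    exact (infDist_le_dist_of_mem (hk (n + 1))).trans_lt h1

/-- The set `X`. -/
def XX (K : Set ℂ) (b : ℕ → ℂ) : Set ℂ := K ∪ ⋃ n, closedBall (b n) (infDist (b n) K / 2)

variable {b : ℕ → ℂ}

theorem shell {n : ℕ} {z : ℂ} (hz : z ∈ closedBall (b n) (infDist (b n) K / 2)) :
    infDist (b n) K / 2 ≤ infDist z K ∧ infDist z K ≤ 3 / 2 * infDist (b n) K := by
  have h1 : infDist (b n) K ≤ infDist z K + dist (b n) z := infDist_le_infDist_add_dist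
  have h2 : infDist z K ≤ infDist (b n) K + dist z (b n) := infDist_le_infDist_add_dist
  rw [mem_closedBall] at hz
  rw [dist_comm] at h1
  constructor <;> linarith

theorem dist_decr (hpos : ∀ n, 0 < infDist (b n) K)
    (hb : ∀ n, infDist (b (n + 1)) K < infDist (b n) K / 4) {m n : ℕ} (h : m < n) :
    infDist (b n) K < infDist (b m) K / 4 := by
  induction n with
  | zero => omega
  | succ n ih =>
    rcases Nat.lt_succ_iff_lt_or_eq.1 h with h1 | rfl
    · have := ih h1
      have := hb n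
      have := hpos m
      linarith
    · exact hb m

theorem tendsto_infDist (hb : ∀ n, infDist (b (n + 1)) K < infDist (b n) K / 4) {ε : ℝ} (hε : 0 < ε) :
    ∃ N, ∀ n ≥ N, infDist (b n) K < ε := by
  have h1 : ∀ n, infDist (b n) K ≤ infDist (b 0) K * (1 / 4) ^ n := by
    intro n
    induction n with
    | zero => simp
    | succ n ih =>
      rw [pow_succ]
      have := hb n
      linarith
  have h2 : Tendsto (fun n : ℕ => infDist (b 0) K * (1 / 4 : ℝ) ^ n) atTop (𝓝 (infDist (b 0) K * 0)) :=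
    (tendsto_pow_atTop_nhds_zero_of_lt_one (by norm_num) (by norm_num)).const_mul _
  rw [mul_zero] at h2
  obtain ⟨N, hN⟩ := eventually_atTop.1 (h2.eventually (gt_mem_nhds hε))
  exact ⟨N, fun n hn => (h1 n).trans_lt (hN n hn)⟩

/-- Points of `X` near a point of the disc number `n` are in this disc. -/
theorem isolated (hpos : ∀ n, 0 < infDist (b n) K)
    (hb : ∀ n, infDist (b (n + 1)) K < infDist (b n) K / 4) {n : ℕ} {z w : ℂ}
    (hz : z ∈ closedBall (b n) (infDist (b n) K / 2)) (hw : w ∈ XX K b)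
    (hd : dist w z < infDist (b n) K / 8) : w ∈ closedBall (b n) (infDist (b n) K / 2) := by
  have h1 := shell hz
  have h2 : infDist w K ≤ infDist z K + dist w z := infDist_le_infDist_add_dist
  have h3 : infDist z K ≤ infDist w K + dist z w := infDist_le_infDist_add_dist
  rw [dist_comm] at h3
  have h4 := hpos n
  rcases hw with hw | hw
  · rw [infDist_zero_of_mem hw] at h3
    linarith [h1.1]
  · obtain ⟨m, hm⟩ := mem_iUnion.1 hw
    have h5 := shell hm
    rcases lt_trichotomy m n with h | rfl | h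
    · have := dist_decr hpos hb h
      linarith [h1.2, h5.1]
    · exact hm
    · have := dist_decr hpos hb h
      linarith [h1.1, h5.2]

theorem isCompact_XX (hKc : IsCompact K) (hne : K.Nonempty) (hpos : ∀ n, 0 < infDist (b n) K)
    (hb : ∀ n, infDist (b (n + 1)) K < infDist (b n) K / 4) : IsCompact (XX K b) := by
  have hsub : XX K b ⊆ cthickening (2 * infDist (b 0) K) K := by
    rintro z (hz | hz)
    · exact self_subset_cthickening K hz
    · obtain ⟨n, hn⟩ := mem_iUnion.1 hz
      apply thickening_subset_cthickening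
      rw [mem_thickening_iff_infDist_lt hne]
      have h1 := (shell hn).2
      have h0 := hpos 0
      rcases Nat.eq_zero_or_pos n with rfl | h
      · linarith
      · have := dist_decr hpos hb h
        linarith
  refine IsCompact.of_isClosed_subset hKc.cthickening ?_ hsub
  rw [← isOpen_compl_iff, Metric.isOpen_iff]
  intro z hz
  have hzK : z ∉ K := fun h => hz (Or.inl h)
  have hδ : 0 < infDist z K := (hKc.isClosed.notMem_iff_infDist_pos hne).1 hzK
  obtain ⟨N, hN⟩ := tendsto_infDist hb (show 0 < infDist z K / 4 by linarith)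
  have hcl : IsClosed (⋃ n ∈ Finset.range N, closedBall (b n) (infDist (b n) K / 2)) :=
    Set.Finite.isClosed_biUnion (Finset.finite_toSet _) fun y _ => isClosed_closedBall
  have hzcl : z ∉ ⋃ n ∈ Finset.range N, closedBall (b n) (infDist (b n) K / 2) := by
    intro h
    simp only [mem_iUnion] at h
    obtain ⟨n, _, hn⟩ := h
    exact hz (Or.inr (mem_iUnion.2 ⟨n, hn⟩))
  obtain ⟨ε, hε, hεs⟩ := Metric.isOpen_iff.1 hcl.isOpen_compl z hzcl
  refine ⟨min ε (infDist z K / 2), lt_min hε (by linarith), fun w hw hwX => ?_⟩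
  have hw1 : dist w z < ε := (mem_ball.1 hw).trans_le (min_le_left _ _)
  have hw2 : dist w z < infDist z K / 2 := (mem_ball.1 hw).trans_le (min_le_right _ _)
  have h3 : infDist z K ≤ infDist w K + dist z w := infDist_le_infDist_add_dist
  rw [dist_comm] at h3
  rcases hwX with hwK | hwD
  · rw [infDist_zero_of_mem hwK] at h3
    linarith
  · obtain ⟨n, hn⟩ := mem_iUnion.1 hwD
    rcases lt_or_ge n N with h | h
    · refine hεs (mem_ball.2 hw1) ?_
      simp only [mem_iUnion]
      exact ⟨n, Finset.mem_range.2 h, hn⟩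
    · have h4 := hN n h
      have h5 := (shell hn).2
      linarith

theorem interior_dense (hpos : ∀ n, 0 < infDist (b n) K) {k : ℕ → ℂ}
    (hk : ∀ z ∈ K, ∀ ε : ℝ, 0 < ε → ∀ N : ℕ, ∃ n ≥ N, dist (k n) z < ε)
    (hbk : ∀ n, dist (b n) (k n) < 1 / ((n : ℝ) + 1)) : XX K b ⊆ closure (interior (XX K b)) := by
  have hin : ∀ n, ball (b n) (infDist (b n) K / 2) ⊆ interior (XX K b) := fun n =>
    interior_maximal (ball_subset_closedBall.trans fun z hz => Or.inr (mem_iUnion.2 ⟨n, hz⟩))
      isOpen_ball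
  rintro z (hz | hz)
  · rw [Metric.mem_closure_iff]
    intro ε hε
    obtain ⟨N, hN⟩ := exists_nat_one_div_lt (show 0 < ε / 2 by linarith)
    obtain ⟨n, hn, hn2⟩ := hk z hz (ε / 2) (by linarith) N
    refine ⟨b n, hin n (mem_ball_self (by have := hpos n; linarith)), ?_⟩
    have h1 : 1 / ((n : ℝ) + 1) ≤ 1 / ((N : ℝ) + 1) :=
      one_div_le_one_div_of_le (by positivity) (by
        have : (N : ℝ) ≤ n := by exact_mod_cast hn
        linarith)
    have h2 := hbk n
    have h3 := dist_triangle z (k n) (b n)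
    rw [dist_comm] at hn2
    rw [dist_comm] at h2
    linarith
  · obtain ⟨n, hn⟩ := mem_iUnion.1 hz
    have h1 : z ∈ closure (ball (b n) (infDist (b n) K / 2)) := by
      rw [closure_ball _ (by have := hpos n; linarith)]
      exact hn
    exact closure_mono (hin n) h1

open Classical in
/-- The function: `G` on `K` and constant on the discs. -/
noncomputable def ff (K : Set ℂ) (b : ℕ → ℂ) (g : ℂ → ℂ) (z : ℂ) : ℂ :=
  if h : ∃ n, z ∈ closedBall (b n) (infDist (b n) K / 2) then g (b h.choose) else g z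

theorem ff_disc (hpos : ∀ n, 0 < infDist (b n) K)
    (hb : ∀ n, infDist (b (n + 1)) K < infDist (b n) K / 4) (g : ℂ → ℂ) {n : ℕ} {z : ℂ}
    (hz : z ∈ closedBall (b n) (infDist (b n) K / 2)) : ff K b g z = g (b n) := by
  have h : ∃ n, z ∈ closedBall (b n) (infDist (b n) K / 2) := ⟨n, hz⟩
  rw [ff, dif_pos h]
  have h1 := shell h.choose_spec
  have h2 := shell hz
  have h3 : h.choose = n := by
    rcases lt_trichotomy h.choose n with h4 | h4 | h4
    · have := dist_decr hpos hb h4
      have := hpos n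
      linarith [h1.1, h2.2]
    · exact h4
    · have := dist_decr hpos hb h4
      have := hpos h.choose
      linarith [h1.2, h2.1]
  rw [h3]

theorem ff_K (hpos : ∀ n, 0 < infDist (b n) K) (g : ℂ → ℂ) {z : ℂ}
    (hz : z ∈ K) : ff K b g z = g z := by
  rw [ff, dif_neg]
  rintro ⟨n, hn⟩
  have h1 := (shell hn).1
  rw [infDist_zero_of_mem hz] at h1
  have := hpos n
  linarith

theorem continuousOn_ff (hpos : ∀ n, 0 < infDist (b n) K)
    (hb : ∀ n, infDist (b (n + 1)) K < infDist (b n) K / 4) {g : ℂ → ℂ} (hg : Continuous g) :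
    ContinuousOn (ff K b g) (XX K b) := by
  intro z hz
  rcases hz with hz | hz
  · rw [Metric.continuousWithinAt_iff]
    intro ε hε
    obtain ⟨δ, hδ, hgδ⟩ := Metric.continuous_iff.1 hg z ε hε
    refine ⟨δ / 2, by linarith, fun w hw hwz => ?_⟩
    rw [ff_K hpos g hz]
    rcases hw with hw | hw
    · rw [ff_K hpos g hw]
      exact hgδ w (by linarith)
    · obtain ⟨n, hn⟩ := mem_iUnion.1 hw
      rw [ff_disc hpos hb g hn]
      refine hgδ _ ?_
      have h1 := (shell hn).1
      have h2 : infDist w K ≤ dist w z := infDist_le_dist_of_mem hz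
      have h3 : dist w (b n) ≤ infDist (b n) K / 2 := mem_closedBall.1 hn
      have h4 := dist_triangle (b n) w z
      rw [dist_comm (b n) w] at h4
      linarith
  · obtain ⟨n, hn⟩ := mem_iUnion.1 hz
    have h1 : ContinuousWithinAt (fun _ => g (b n)) (XX K b) z := continuousWithinAt_const
    refine h1.congr_of_eventuallyEq ?_ (ff_disc hpos hb g hn)
    rw [Filter.EventuallyEq, eventually_nhdsWithin_iff]
    filter_upwards [ball_mem_nhds z (show 0 < infDist (b n) K / 8 by have := hpos n; linarith)] with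
      w hw hwX
    exact ff_disc hpos hb g (isolated hpos hb hn hwX (mem_ball.1 hw))

/-- Interior points of `X` are in the discs, and `ff` has derivative zero there. -/
theorem hasDerivAt_ff (hpos : ∀ n, 0 < infDist (b n) K)
    (hb : ∀ n, infDist (b (n + 1)) K < infDist (b n) K / 4) {k : ℕ → ℂ}
    (hk : ∀ z ∈ K, ∀ ε : ℝ, 0 < ε → ∀ N : ℕ, ∃ n ≥ N, dist (k n) z < ε)
    (hbk : ∀ n, dist (b n) (k n) < 1 / ((n : ℝ) + 1)) (g : ℂ → ℂ) :
    ∀ z ∈ interior (XX K b), HasDerivAt (ff K b g) 0 z := by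
  intro z hz
  obtain ⟨r, hr, hrs⟩ := Metric.isOpen_iff.1 isOpen_interior z hz
  have hrs : ball z r ⊆ XX K b := hrs.trans interior_subset
  -- a disc that contains `z`
  obtain ⟨n, hn⟩ : ∃ n, z ∈ closedBall (b n) (infDist (b n) K / 2) := by
    rcases interior_subset hz with hzK | hzD
    · exfalso
      -- there is `b n` in the ball
      obtain ⟨N, hN⟩ := exists_nat_one_div_lt (show 0 < r / 2 by linarith)
      obtain ⟨n, hn, hn2⟩ := hk z hzK (r / 2) (by linarith) N
      have h1 : 1 / ((n : ℝ) + 1) ≤ 1 / ((N : ℝ) + 1) :=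
        one_div_le_one_div_of_le (by positivity) (by
          have : (N : ℝ) ≤ n := by exact_mod_cast hn
          linarith)
      have h2 := hbk n
      have h3 := dist_triangle (b n) (k n) z
      have hbn : b n ∈ ball z r := by
        rw [mem_ball]; linarith
      -- intermediate value
      have hconn : IsPreconnected (ball z r) := (convex_ball z r).isPreconnected
      have h4 := hconn.intermediate_value (mem_ball_self hr) hbn
        (continuous_infDist_pt K).continuousOn
      have hp := hpos n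
      obtain ⟨w, hw, hw2⟩ := h4 (show 7 / 16 * infDist (b n) K ∈
          Icc (infDist z K) (infDist (b n) K) by
        rw [infDist_zero_of_mem hzK]
        constructor <;> linarith)
      simp only at hw2
      rcases hrs hw with hwK | hwD
      · rw [infDist_zero_of_mem hwK] at hw2
        linarith
      · obtain ⟨m, hm⟩ := mem_iUnion.1 hwD
        have h5 := shell hm
        rw [hw2] at h5
        rcases lt_trichotomy m n with h | rfl | h
        · have := dist_decr hpos hb h
          linarith [h5.1]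
        · linarith [h5.1]
        · have := dist_decr hpos hb h
          linarith [h5.2]
    · exact mem_iUnion.1 hzD
  have hp := hpos n
  have h1 : ff K b g =ᶠ[𝓝 z] fun _ => g (b n) := by
    filter_upwards [ball_mem_nhds z (show 0 < min r (infDist (b n) K / 8) from
      lt_min hr (by linarith))] with w hw
    have hw1 : dist w z < r := (mem_ball.1 hw).trans_le (min_le_left _ _)
    have hw2 : dist w z < infDist (b n) K / 8 := (mem_ball.1 hw).trans_le (min_le_right _ _)
    exact ff_disc hpos hb g (isolated hpos hb hn (hrs (mem_ball.2 hw1)) hw2)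
  exact (hasDerivAt_const z (g (b n))).congr_of_eventuallyEq h1

end shells

/-- **Main theorem.** There are a nonempty compact set `X` whose interior is dense in `X` and a
function `f`, continuous on `X` and with complex derivative `0` at all points of the interior, so
that `f` is in `A^{(1)}(X)`, such that `f` is not a uniform limit on `X` of rational functions with
poles off `X`. -/
theorem result : ∃ (X : Set ℂ) (f : ℂ → ℂ), IsCompact X ∧ X.Nonempty ∧
    X ⊆ closure (interior X) ∧ ContinuousOn f X ∧ (∀ z ∈ interior X, HasDerivAt f 0 z) ∧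
    ¬ ∀ ε : ℝ, 0 < ε → ∃ p q : ℂ[X], (∀ z ∈ X, q.eval z ≠ 0) ∧
      ∀ z ∈ X, ‖f z - p.eval z / q.eval z‖ < ε := by
  have hne : K.Nonempty := ⟨0, zero_mem_K⟩
  obtain ⟨k, hkK, hk⟩ := exists_dense_tails hne
  obtain ⟨b, hbK, hbk, hb⟩ := exists_centres isCompact_K interior_K hkK
  have hpos : ∀ n, 0 < infDist (b n) K := fun n =>
    (isCompact_K.isClosed.notMem_iff_infDist_pos hne).1 (hbK n)
  refine ⟨XX K b, ff K b G, isCompact_XX isCompact_K hne hpos hb, hne.mono fun z hz => Or.inl hz,
    interior_dense hpos hk hbk, continuousOn_ff hpos hb continuous_G,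
    hasDerivAt_ff hpos hb hk hbk G, ?_⟩
  intro h
  obtain ⟨p, q, hq, hpq⟩ := h (1 / 4) (by norm_num)
  refine G_far p q (fun z hz => hq z (Or.inl hz)) fun z hz => ?_
  have h1 := hpq z (Or.inl hz)
  rwa [ff_K hpos G hz] at h1

end Pool.Agent.Results.MP_a6d22b_an.NotRational
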